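import Mathlib
import Pool.Agent.Q31.VA.E
set_option autoImplicit false

/-!
# Virtually abelian images of amalgams over virtually cyclic subgroups

Every amalgamated free product of two finitely generated virtually abelian groups over a common
virtually cyclic subgroup has a homomorphism to a finitely generated virtually abelian group which
is injective on both factors and for which the images of the factors have virtually cyclic
intersection.
-/

namespace Pool.Agent.Results.MP_f748d5_al.VirtAbImages

universe u

/-- A group is virtually abelian if it has an abelian subgroup of finite index. -/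
def VirtuallyAbelian (G : Type u) [Group G] : Prop :=
  ∃ A : Subgroup G, A.FiniteIndex ∧ ∀ x ∈ A, ∀ y ∈ A, x * y = y * x

/-- A group is virtually cyclic if it has a cyclic subgroup of finite index. -/
def VirtuallyCyclic (G : Type u) [Group G] : Prop :=
  ∃ C : Subgroup G, C.FiniteIndex ∧ IsCyclic C

/-- Let `G 0` and `G 1` be finitely generated virtually abelian groups, let `G₀` be a virtually
cyclic group with injective homomorphisms `φ i : G₀ → G i`, and let `Monoid.PushoutI φ` be the
amalgamated free product. Then there are a finitely generated virtually abelian group `E` and a
homomorphism `ν` from the amalgamated free product to `E` which is injective on both factors and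
for which the intersection of the images of the two factors is virtually cyclic. -/
theorem result {G : Fin 2 → Type u} {G₀ : Type u} [∀ i, Group (G i)] [Group G₀]
    (φ : ∀ i, G₀ →* G i) (hφ : ∀ i, Function.Injective (φ i)) (hfg : ∀ i, Group.FG (G i))
    (hva : ∀ i, VirtuallyAbelian (G i)) (h₀ : VirtuallyCyclic G₀) :
    ∃ (E : Type u) (_ : Group E) (ν : Monoid.PushoutI φ →* E), Group.FG E ∧ VirtuallyAbelian E ∧
      (∀ i, Function.Injective (ν.comp (Monoid.PushoutI.of i))) ∧
      VirtuallyCyclic ((ν.comp (Monoid.PushoutI.of 0)).range ⊓
        (ν.comp (Monoid.PushoutI.of 1)).range : Subgroup E) :=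
  Q31VA.final φ hφ hfg hva h₀

end Pool.Agent.Results.MP_f748d5_al.VirtAbImages
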